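import Mathlib

set_option autoImplicit false

namespace Pool.Agent.Results.MP_ab03e0_co.OrderModFour

open Equiv Equiv.Perm

/-- Every finite quasigroup satisfying `(xy)y = x(xy)` has order congruent to 0 or 1 modulo 4. -/
theorem result (S : Type*) [Fintype S] (op : S → S → S)
    (hleft : ∀ a b : S, ∃! x : S, op a x = b)
    (hright : ∀ a b : S, ∃! x : S, op x a = b)
    (hid : ∀ x y : S, op (op x y) y = op x (op x y)) :
    Fintype.card S % 4 = 0 ∨ Fintype.card S % 4 = 1 := by
  classical
  -- the two bijections of `S × S` attached to the multiplication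
  have hFbij : Function.Bijective (fun p : S × S => (p.1, op p.1 p.2)) := by
    constructor
    · rintro ⟨a, b⟩ ⟨c, d⟩ h
      simp only [Prod.mk.injEq] at h
      obtain ⟨rfl, h2⟩ := h
      obtain ⟨w, _, huniq⟩ := hleft a (op a b)
      have h3 := huniq b rfl
      have h4 := huniq d h2.symm
      rw [h3, h4]
    · rintro ⟨a, b⟩
      obtain ⟨w, hw, _⟩ := hleft a b
      exact ⟨(a, w), by simpa using hw⟩
  have hGbij : Function.Bijective (fun p : S × S => (op p.1 p.2, p.2)) := by
    constructor
    · rintro ⟨a, b⟩ ⟨c, d⟩ h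
      simp only [Prod.mk.injEq] at h
      obtain ⟨h2, rfl⟩ := h
      obtain ⟨w, _, huniq⟩ := hright b (op a b)
      have h3 := huniq a rfl
      have h4 := huniq c h2.symm
      rw [h3, h4]
    · rintro ⟨a, b⟩
      obtain ⟨w, hw, _⟩ := hright b a
      exact ⟨(w, b), by simpa using hw⟩
  let F : Perm (S × S) := Equiv.ofBijective _ hFbij
  let G : Perm (S × S) := Equiv.ofBijective _ hGbij
  let T : Perm (S × S) := Equiv.prodComm S S
  have hFG : F * G = T * (G * F) := by
    ext1 p
    rcases p with ⟨x, y⟩
    simp only [Perm.mul_apply]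
    simp [F, G, T, Equiv.ofBijective, hid x y]
  have hT : sign T = 1 := by
    have h := congrArg sign hFG
    simp only [map_mul] at h
    have h2 : sign F * sign G = sign T * (sign F * sign G) := by
      rw [mul_comm (sign F) (sign G)]
      rw [mul_comm (sign F) (sign G)] at h
      exact h
    have h3 : 1 * (sign F * sign G) = sign T * (sign F * sign G) := by
      rw [one_mul]; exact h2
    exact (mul_right_cancel h3).symm
  have hTsq : T ^ 2 = 1 := by
    ext1 p
    rcases p with ⟨x, y⟩
    simp [pow_two, T]
  have hfix : Fintype.card (Function.fixedPoints T) = Fintype.card S := by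
    refine Fintype.card_congr ⟨fun p => p.1.1, fun s => ⟨(s, s), by simp [Function.mem_fixedPoints, Function.IsFixedPt, T]⟩, ?_, ?_⟩
    · rintro ⟨⟨a, b⟩, h⟩
      have : b = a := by
        have h' := h
        simp only [Function.mem_fixedPoints, Function.IsFixedPt, T, Equiv.prodComm_apply,
          Prod.swap_prod_mk, Prod.mk.injEq] at h'
        exact h'.1
      subst this
      rfl
    · intro s
      rfl
  have hs := sign_of_pow_two_eq_one hTsq
  rw [hT, hfix, Fintype.card_prod] at hs
  set n := Fintype.card S with hn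
  have heven : Even ((n * n - n) / 2) := by
    by_contra hodd
    rw [Nat.not_even_iff_odd] at hodd
    rw [hodd.neg_one_pow] at hs
    exact absurd hs (by decide)
  -- arithmetic
  obtain ⟨k, hk⟩ := heven
  have hmod : n % 4 = 0 ∨ n % 4 = 1 ∨ n % 4 = 2 ∨ n % 4 = 3 := by omega
  obtain ⟨q, hq⟩ : ∃ q, n = 4 * q + n % 4 := ⟨n / 4, by omega⟩
  rcases hmod with h | h | h | h
  · exact Or.inl h
  · exact Or.inr h
  · exfalso
    rw [h] at hq
    have e : n * n - n = 2 * (8 * q * q + 6 * q + 1) := by
      rw [hq]
      have : (4 * q + 2) * (4 * q + 2) = 2 * (8 * q * q + 6 * q + 1) + (4 * q + 2) := by ring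
      omega
    rw [e, Nat.mul_div_cancel_left _ (by norm_num)] at hk
    have : 8 * q * q = 2 * (4 * q * q) := by ring
    omega
  · exfalso
    rw [h] at hq
    have e : n * n - n = 2 * (8 * q * q + 10 * q + 3) := by
      rw [hq]
      have : (4 * q + 3) * (4 * q + 3) = 2 * (8 * q * q + 10 * q + 3) + (4 * q + 3) := by ring
      omega
    rw [e, Nat.mul_div_cancel_left _ (by norm_num)] at hk
    have : 8 * q * q = 2 * (4 * q * q) := by ring
    omega

end Pool.Agent.Results.MP_ab03e0_co.OrderModFour
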