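import Mathlib

set_option autoImplicit false

namespace Pool.Agent.Results.MP_ab03e0_co.OrderSeventeen

/-- The values of the permutation `φ` of the integers modulo 17 used to build the model. -/
def phi : Fin 17 → Fin 17 :=
  ![0, 13, 9, 12, 1, 3, 7, 11, 2, 15, 6, 10, 14, 16, 5, 8, 4]

/-- The multiplication of the model: `x * y = x + φ (y - x)` in the integers modulo 17. -/
def mul17 (x y : Fin 17) : Fin 17 := x + phi (y - x)

theorem mul17_left_injective : ∀ a x y : Fin 17, mul17 a x = mul17 a y → x = y := by
  decide +kernel

theorem mul17_right_injective : ∀ a x y : Fin 17, mul17 x a = mul17 y a → x = y := by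
  decide +kernel

theorem mul17_identity : ∀ x y : Fin 17, mul17 (mul17 x y) y = mul17 x (mul17 x y) := by
  decide +kernel

/-- There is a quasigroup of order 17 satisfying `(xy)y = x(xy)`. -/
theorem result : ∃ op : Fin 17 → Fin 17 → Fin 17,
    (∀ a b : Fin 17, ∃! x : Fin 17, op a x = b) ∧
    (∀ a b : Fin 17, ∃! x : Fin 17, op x a = b) ∧
    (∀ x y : Fin 17, op (op x y) y = op x (op x y)) := by
  refine ⟨mul17, ?_, ?_, mul17_identity⟩
  · intro a b
    have hinj : Function.Injective (fun x => mul17 a x) := fun x y h =>
      mul17_left_injective a x y h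
    have hbij : Function.Bijective (fun x => mul17 a x) :=
      Finite.injective_iff_bijective.mp hinj
    exact hbij.existsUnique b
  · intro a b
    have hinj : Function.Injective (fun x => mul17 x a) := fun x y h =>
      mul17_right_injective a x y h
    have hbij : Function.Bijective (fun x => mul17 x a) :=
      Finite.injective_iff_bijective.mp hinj
    exact hbij.existsUnique b

end Pool.Agent.Results.MP_ab03e0_co.OrderSeventeen
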